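import Mathlib

set_option autoImplicit false
open Finset

/-! Project LG, part VC: uniform convergence for a class of sets with a bounded growth function
(symmetrization and the inequality of Hoeffding, finite sets). -/

namespace Pool.Agent.W824.LG

open Classical in
theorem sum_prod {ι κ : Type} [Fintype ι] [Fintype κ] (g : ι → κ → ℝ) :
    ∑ σ : ι → κ, ∏ i, g i (σ i) = ∏ i, ∑ b, g i b := by
  rw [Finset.prod_univ_sum, Fintype.piFinset_univ]

open Classical in
/-- the inequality of Hoeffding for random signs -/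
theorem rad {ι : Type} [Fintype ι] (a : ι → ℝ) (ha : ∀ i, |a i| ≤ 1) (s : ℝ) (hs : 0 ≤ s) :
    (((univ : Finset (ι → Bool)).filter (fun σ => (Fintype.card ι : ℝ) * s <
      ∑ i, (if σ i = true then a i else -a i))).card : ℝ) ≤
      2 ^ (Fintype.card ι) * Real.exp (-(Fintype.card ι : ℝ) * s ^ 2 / 2) := by
  set N : ℝ := (Fintype.card ι : ℝ) with hN
  set B := (univ : Finset (ι → Bool)).filter (fun σ => N * s <
      ∑ i, (if σ i = true then a i else -a i)) with hB
  have h1 : (B.card : ℝ) * Real.exp (s * (N * s)) ≤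
      ∑ σ : ι → Bool, Real.exp (s * ∑ i, (if σ i = true then a i else -a i)) := by
    calc (B.card : ℝ) * Real.exp (s * (N * s)) = ∑ σ ∈ B, Real.exp (s * (N * s)) := by
          rw [Finset.sum_const, nsmul_eq_mul]
      _ ≤ ∑ σ ∈ B, Real.exp (s * ∑ i, (if σ i = true then a i else -a i)) := by
          apply Finset.sum_le_sum
          intro σ hσ
          apply Real.exp_le_exp.mpr
          apply mul_le_mul_of_nonneg_left _ hs
          rw [hB, Finset.mem_filter] at hσ
          exact hσ.2.le
      _ ≤ _ := Finset.sum_le_sum_of_subset_of_nonneg (Finset.subset_univ _)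
          (fun _ _ _ => (Real.exp_pos _).le)
  have h2 : ∑ σ : ι → Bool, Real.exp (s * ∑ i, (if σ i = true then a i else -a i)) =
      ∏ i, ∑ b : Bool, Real.exp (s * (if b = true then a i else -a i)) := by
    rw [← sum_prod (fun i b => Real.exp (s * (if b = true then a i else -a i)))]
    apply Finset.sum_congr rfl
    intro σ _
    rw [Finset.mul_sum, Real.exp_sum]
  have h3 : ∏ i, ∑ b : Bool, Real.exp (s * (if b = true then a i else -a i)) ≤
      ∏ i : ι, (2 * Real.exp (s ^ 2 / 2)) := by
    apply Finset.prod_le_prod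
    · intro i _
      exact Finset.sum_nonneg (fun _ _ => (Real.exp_pos _).le)
    · intro i _
      rw [Fintype.sum_bool]
      simp only [if_true, Bool.false_eq_true, if_false]
      have h4 : Real.exp (s * a i) + Real.exp (s * -a i) = 2 * Real.cosh (s * a i) := by
        rw [Real.cosh_eq, mul_neg]; ring
      rw [h4]
      have h5 := Real.cosh_le_exp_half_sq (s * a i)
      have h6 : Real.exp ((s * a i) ^ 2 / 2) ≤ Real.exp (s ^ 2 / 2) := by
        apply Real.exp_le_exp.mpr
        have h7 : (a i) ^ 2 ≤ 1 := by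
          rw [← sq_abs]
          have := abs_nonneg (a i)
          nlinarith [ha i]
        have h8 : (s * a i) ^ 2 ≤ s ^ 2 := by
          rw [mul_pow]
          nlinarith [sq_nonneg s]
        linarith
      linarith
  have h4 : ∏ i : ι, (2 * Real.exp (s ^ 2 / 2)) =
      2 ^ (Fintype.card ι) * Real.exp (N * s ^ 2 / 2) := by
    rw [Finset.prod_const, Finset.card_univ, mul_pow, ← Real.exp_nat_mul, mul_div_assoc]
  have h5 : (B.card : ℝ) * Real.exp (s * (N * s)) ≤
      2 ^ (Fintype.card ι) * Real.exp (N * s ^ 2 / 2) := by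
    rw [← h4]
    exact h1.trans (h2 ▸ h3)
  have h6 : Real.exp (N * s ^ 2 / 2) = Real.exp (-N * s ^ 2 / 2) * Real.exp (s * (N * s)) := by
    rw [← Real.exp_add]; congr 1; ring
  have h7 : (B.card : ℝ) * Real.exp (s * (N * s)) ≤
      (2 ^ (Fintype.card ι) * Real.exp (-N * s ^ 2 / 2)) * Real.exp (s * (N * s)) := by
    rw [h6] at h5
    linarith
  exact le_of_mul_le_mul_right h7 (Real.exp_pos _)

open Classical in
/-- both signs -/
theorem rad2 {ι : Type} [Fintype ι] (a : ι → ℝ) (ha : ∀ i, |a i| ≤ 1) (s : ℝ) (hs : 0 ≤ s) :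
    (((univ : Finset (ι → Bool)).filter (fun σ => (Fintype.card ι : ℝ) * s <
      |∑ i, (if σ i = true then a i else -a i)|)).card : ℝ) ≤
      2 * (2 ^ (Fintype.card ι) * Real.exp (-(Fintype.card ι : ℝ) * s ^ 2 / 2)) := by
  have h1 := rad a ha s hs
  have h2 := rad (fun i => -a i) (fun i => by rw [abs_neg]; exact ha i) s hs
  have h3 : (univ : Finset (ι → Bool)).filter (fun σ => (Fintype.card ι : ℝ) * s <
      |∑ i, (if σ i = true then a i else -a i)|) ⊆
      (univ : Finset (ι → Bool)).filter (fun σ => (Fintype.card ι : ℝ) * s <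
        ∑ i, (if σ i = true then a i else -a i)) ∪
      (univ : Finset (ι → Bool)).filter (fun σ => (Fintype.card ι : ℝ) * s <
        ∑ i, (if σ i = true then -a i else - -a i)) := by
    intro σ hσ
    simp only [Finset.mem_filter, Finset.mem_univ, true_and, Finset.mem_union] at hσ ⊢
    rcases lt_abs.mp hσ with h | h
    · exact Or.inl h
    · refine Or.inr ?_
      have h4 : ∑ i, (if σ i = true then -a i else - -a i) =
          -∑ i, (if σ i = true then a i else -a i) := by
        rw [← Finset.sum_neg_distrib]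
        apply Finset.sum_congr rfl
        intro i _
        split_ifs <;> rfl
      rw [h4]
      exact h
  have h4 := (Finset.card_le_card h3).trans (Finset.card_union_le _ _)
  have h5 : (((univ : Finset (ι → Bool)).filter (fun σ => (Fintype.card ι : ℝ) * s <
      |∑ i, (if σ i = true then a i else -a i)|)).card : ℝ) ≤
      ((((univ : Finset (ι → Bool)).filter (fun σ => (Fintype.card ι : ℝ) * s <
        ∑ i, (if σ i = true then a i else -a i))).card : ℕ) : ℝ) +
      ((((univ : Finset (ι → Bool)).filter (fun σ => (Fintype.card ι : ℝ) * s <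
        ∑ i, (if σ i = true then -a i else - -a i))).card : ℕ) : ℝ) := by
    exact_mod_cast h4
  linarith

open Classical in
/-- the second moment -/
theorem sec {ι X : Type} [Fintype ι] [Fintype X] (g : X → ℝ) (hg : ∑ x, g x = 0) :
    (∑ y : ι → X, (∑ i, g (y i)) ^ 2) * Fintype.card X =
      Fintype.card ι * (Fintype.card X : ℝ) ^ Fintype.card ι * ∑ x, g x ^ 2 := by
  have h1 : ∀ y : ι → X, (∑ i, g (y i)) ^ 2 = ∑ i, ∑ j, g (y i) * g (y j) := by
    intro y
    rw [sq, Finset.sum_mul_sum]
  have h2 : ∀ i j : ι, i ≠ j → ∑ y : ι → X, g (y i) * g (y j) = 0 := by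
    intro i j hij
    have h3 : ∀ y : ι → X, g (y i) * g (y j) =
        ∏ k, ((if k = i then g (y k) else 1) * (if k = j then g (y k) else 1)) := by
      intro y
      rw [Finset.prod_mul_distrib, Finset.prod_ite_eq', Finset.prod_ite_eq']
      simp
    calc ∑ y : ι → X, g (y i) * g (y j) = ∑ y : ι → X,
        ∏ k, ((if k = i then g (y k) else 1) * (if k = j then g (y k) else 1)) :=
          Finset.sum_congr rfl (fun y _ => h3 y)
      _ = ∏ k, ∑ x : X, ((if k = i then g x else 1) * (if k = j then g x else 1)) :=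
          sum_prod (fun k x => (if k = i then g x else 1) * (if k = j then g x else 1))
      _ = 0 := by
          apply Finset.prod_eq_zero (Finset.mem_univ i)
          simp only [if_true, if_neg hij, mul_one]
          exact hg
  have h3 : ∀ i : ι, (∑ y : ι → X, g (y i) * g (y i)) * Fintype.card X =
      (Fintype.card X : ℝ) ^ Fintype.card ι * ∑ x, g x ^ 2 := by
    intro i
    have h4 : ∀ y : ι → X, g (y i) * g (y i) = ∏ k, (if k = i then g (y k) ^ 2 else 1) := by
      intro y
      rw [Finset.prod_ite_eq']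
      simp [sq]
    have h5 : ∑ y : ι → X, g (y i) * g (y i) =
        ∏ k, ∑ x : X, (if k = i then g x ^ 2 else 1) := by
      rw [← sum_prod (fun k x => if k = i then g x ^ 2 else 1)]
      exact Finset.sum_congr rfl (fun y _ => h4 y)
    rw [h5, ← Finset.mul_prod_erase _ _ (Finset.mem_univ i)]
    simp only [if_true]
    have h6 : ∏ k ∈ univ.erase i, ∑ x : X, (if k = i then g x ^ 2 else (1 : ℝ)) =
        ∏ k ∈ (univ : Finset ι).erase i, (Fintype.card X : ℝ) := by
      apply Finset.prod_congr rfl
      intro k hk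
      rw [Finset.mem_erase] at hk
      simp only [if_neg hk.1, Finset.sum_const, Finset.card_univ, nsmul_eq_mul, mul_one]
    have h7 : (Fintype.card X : ℝ) * ∏ k ∈ (univ : Finset ι).erase i, (Fintype.card X : ℝ) =
        (Fintype.card X : ℝ) ^ Fintype.card ι := by
      rw [Finset.mul_prod_erase _ (fun _ => (Fintype.card X : ℝ)) (Finset.mem_univ i),
        Finset.prod_const, Finset.card_univ]
    rw [h6, ← h7]
    ring
  have h4 : ∑ y : ι → X, (∑ i, g (y i)) ^ 2 = ∑ i, ∑ y : ι → X, g (y i) * g (y i) := by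
    calc ∑ y : ι → X, (∑ i, g (y i)) ^ 2 = ∑ y : ι → X, ∑ i, ∑ j, g (y i) * g (y j) :=
          Finset.sum_congr rfl (fun y _ => h1 y)
      _ = ∑ i, ∑ y : ι → X, ∑ j, g (y i) * g (y j) := Finset.sum_comm
      _ = ∑ i, ∑ j, ∑ y : ι → X, g (y i) * g (y j) :=
          Finset.sum_congr rfl (fun i _ => Finset.sum_comm)
      _ = ∑ i, ∑ y : ι → X, g (y i) * g (y i) := by
          apply Finset.sum_congr rfl
          intro i _
          rw [Finset.sum_eq_single i]
          · intro j _ hj
            exact h2 i j (Ne.symm hj)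
          · intro h; exact absurd (Finset.mem_univ i) h
  rw [h4, Finset.sum_mul, Finset.sum_congr rfl (fun i _ => h3 i), Finset.sum_const,
    Finset.card_univ, nsmul_eq_mul]
  ring

/-- the indicator function -/
noncomputable def hr {X : Type} (h : X → Bool) (x : X) : ℝ := if h x = true then 1 else 0

/-- the mean -/
noncomputable def mean {X : Type} [Fintype X] (h : X → Bool) : ℝ :=
  (∑ x, hr h x) / Fintype.card X

open Classical in
/-- Chebyshev -/
theorem cheb {ι X : Type} [Fintype ι] [Fintype X] [Nonempty X] (h : X → Bool)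
    (hN : 512 ≤ Fintype.card ι) :
    (1 : ℝ) / 2 * (Fintype.card X : ℝ) ^ Fintype.card ι ≤
      (((univ : Finset (ι → X)).filter (fun y =>
        |∑ i, hr h (y i) - Fintype.card ι * mean h| ≤ Fintype.card ι / 32)).card : ℝ) := by
  set N : ℝ := (Fintype.card ι : ℝ) with hNdef
  set K : ℝ := (Fintype.card X : ℝ) with hKdef
  have hN' : (512 : ℝ) ≤ N := by rw [hNdef]; exact_mod_cast hN
  have hK : 0 < K := by rw [hKdef]; exact_mod_cast Fintype.card_pos
  set g : X → ℝ := fun x => hr h x - mean h with hg
  have hg0 : ∑ x, g x = 0 := by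
    simp only [hg, Finset.sum_sub_distrib, Finset.sum_const, Finset.card_univ, nsmul_eq_mul]
    rw [mean, ← hKdef]
    field_simp
    ring
  have hg2 : ∑ x, g x ^ 2 ≤ K / 4 := by
    have h1 : ∑ x, hr h x = K * mean h := by
      rw [mean, ← hKdef]; field_simp
    have h2 : ∀ x, g x ^ 2 = hr h x - 2 * mean h * hr h x + mean h ^ 2 := by
      intro x
      have h3 : hr h x ^ 2 = hr h x := by
        unfold hr; split_ifs <;> norm_num
      simp only [hg]
      rw [sub_sq, h3]; ring
    have h3 : ∑ x, g x ^ 2 = K * mean h - 2 * mean h * (K * mean h) + K * mean h ^ 2 := by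
      rw [Finset.sum_congr rfl (fun x _ => h2 x), Finset.sum_add_distrib, Finset.sum_sub_distrib,
        ← Finset.mul_sum, h1, Finset.sum_const, Finset.card_univ, nsmul_eq_mul]
    rw [h3]
    nlinarith [mul_nonneg hK.le (sq_nonneg (mean h - 1 / 2))]
  have hs := sec (ι := ι) g hg0
  rw [← hNdef, ← hKdef] at hs
  have hpow : 0 < K ^ Fintype.card ι := pow_pos hK _
  have h1 : ∑ y : ι → X, (∑ i, g (y i)) ^ 2 ≤ N * K ^ Fintype.card ι / 4 := by
    have h2 : (∑ y : ι → X, (∑ i, g (y i)) ^ 2) * K ≤ N * K ^ Fintype.card ι / 4 * K := by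
      rw [hs]
      have h3 : N * K ^ Fintype.card ι * ∑ x, g x ^ 2 ≤ N * K ^ Fintype.card ι * (K / 4) :=
        mul_le_mul_of_nonneg_left hg2 (by positivity)
      linarith
    exact le_of_mul_le_mul_right h2 hK
  set Gd := (univ : Finset (ι → X)).filter (fun y =>
        |∑ i, hr h (y i) - N * mean h| ≤ N / 32) with hGd
  set Bd := (univ : Finset (ι → X)).filter (fun y =>
        ¬ |∑ i, hr h (y i) - N * mean h| ≤ N / 32) with hBd
  have hsum : ∀ y : ι → X, ∑ i, g (y i) = ∑ i, hr h (y i) - N * mean h := by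
    intro y
    simp only [hg, Finset.sum_sub_distrib, Finset.sum_const, Finset.card_univ, nsmul_eq_mul]
    rw [← hNdef]
  have h2 : (Bd.card : ℝ) * (N / 32) ^ 2 ≤ ∑ y : ι → X, (∑ i, g (y i)) ^ 2 := by
    calc (Bd.card : ℝ) * (N / 32) ^ 2 = ∑ y ∈ Bd, (N / 32) ^ 2 := by
          rw [Finset.sum_const, nsmul_eq_mul]
      _ ≤ ∑ y ∈ Bd, (∑ i, g (y i)) ^ 2 := by
          apply Finset.sum_le_sum
          intro y hy
          rw [hBd, Finset.mem_filter] at hy
          rw [hsum, ← sq_abs (∑ i, hr h (y i) - N * mean h)]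
          apply pow_le_pow_left₀ (by positivity)
          exact (not_le.mp hy.2).le
      _ ≤ _ := Finset.sum_le_sum_of_subset_of_nonneg (Finset.subset_univ _)
          (fun _ _ _ => sq_nonneg _)
  have h3 : (Gd.card : ℝ) + Bd.card = K ^ Fintype.card ι := by
    have h4 : Gd.card + Bd.card = (univ : Finset (ι → X)).card :=
      Finset.card_filter_add_card_filter_not (s := (univ : Finset (ι → X))) _
    rw [Finset.card_univ, Fintype.card_fun] at h4
    rw [hKdef]
    exact_mod_cast h4
  have h4 : (Bd.card : ℝ) ≤ 1 / 2 * K ^ Fintype.card ι := by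
    have h5 : (Bd.card : ℝ) * (N / 32) ^ 2 ≤ N * K ^ Fintype.card ι / 4 := h2.trans h1
    have h6 : N * K ^ Fintype.card ι / 4 ≤ (1 / 2 * K ^ Fintype.card ι) * (N / 32) ^ 2 := by
      have h7 : (1 / 2 * K ^ Fintype.card ι) * (N / 32) ^ 2 - N * K ^ Fintype.card ι / 4 =
          K ^ Fintype.card ι * N * (N - 512) / 2048 := by ring
      have h8 : 0 ≤ K ^ Fintype.card ι * N * (N - 512) / 2048 := by
        apply div_nonneg _ (by norm_num)
        apply mul_nonneg (by positivity)
        linarith
      linarith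
    exact le_of_mul_le_mul_right (h5.trans h6) (by positivity)
  linarith

/-- exchange of the two samples on a set of indices -/
def sw {ι X : Type} (σ : ι → Bool) (p : (ι → X) × (ι → X)) : (ι → X) × (ι → X) :=
  (fun i => if σ i = true then p.1 i else p.2 i, fun i => if σ i = true then p.2 i else p.1 i)

theorem sw_invol {ι X : Type} (σ : ι → Bool) : Function.Involutive (sw (X := X) σ) := by
  intro p
  unfold sw
  ext i
  · by_cases h : σ i = true <;> simp [h]
  · by_cases h : σ i = true <;> simp [h]

/-- the difference of the two sums is large -/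
def Lg {ι X : Type} [Fintype ι] (h : X → Bool) (p : (ι → X) × (ι → X)) : Prop :=
  (Fintype.card ι : ℝ) * (1 / 32) < |∑ i, (hr h (p.1 i) - hr h (p.2 i))|

theorem vc : ∀ (ι X : Type) [Fintype ι] [Fintype X] [Nonempty X] (F : Set (X → Bool)) (Γ : ℕ),
  512 ≤ Fintype.card ι →
  (∀ Y : Finset X, Y.card ≤ 2 * Fintype.card ι →
    Set.ncard {f : X → Bool | (∃ h ∈ F, ∀ y ∈ Y, f y = h y) ∧ ∀ y ∉ Y, f y = false} ≤ Γ) →
  (Set.ncard {z : ι → X | ∃ h ∈ F, (1 : ℝ) / 16 <
    |(Set.ncard {i | h (z i) = true} : ℝ) / Fintype.card ι -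
      (Set.ncard {x | h x = true} : ℝ) / Fintype.card X|} : ℝ) ≤
    4 * Γ * Real.exp (-(Fintype.card ι : ℝ) / 4096) * (Fintype.card X : ℝ) ^ Fintype.card ι := by
  classical
  intro ι X _ _ _ F Γ hN hΓ
  set N : ℝ := (Fintype.card ι : ℝ) with hNdef
  set K : ℝ := (Fintype.card X : ℝ) with hKdef
  have hN' : (512 : ℝ) ≤ N := by rw [hNdef]; exact_mod_cast hN
  have hK : 0 < K := by rw [hKdef]; exact_mod_cast Fintype.card_pos
  have hpow : 0 < K ^ Fintype.card ι := pow_pos hK _
  -- conversion of the cardinalities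
  have hc1 : ∀ (h : X → Bool) (z : ι → X), (Set.ncard {i | h (z i) = true} : ℝ) =
      ∑ i, hr h (z i) := by
    intro h z
    have h1 : {i | h (z i) = true} = ((univ.filter (fun i => h (z i) = true) : Finset ι) : Set ι) := by
      ext i; simp
    rw [h1, Set.ncard_coe_finset, Finset.card_filter]
    push_cast
    rfl
  have hc2 : ∀ h : X → Bool, (Set.ncard {x | h x = true} : ℝ) / K = mean h := by
    intro h
    have h1 : {x | h x = true} = ((univ.filter (fun x => h x = true) : Finset X) : Set X) := by
      ext i; simp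
    rw [h1, Set.ncard_coe_finset, Finset.card_filter, mean, ← hKdef]
    push_cast
    rfl
  set Bad := (univ : Finset (ι → X)).filter (fun z => ∃ h ∈ F, (1 : ℝ) / 16 <
    |(∑ i, hr h (z i)) / N - mean h|) with hBad
  have hBadc : Set.ncard {z : ι → X | ∃ h ∈ F, (1 : ℝ) / 16 <
    |(Set.ncard {i | h (z i) = true} : ℝ) / N -
      (Set.ncard {x | h x = true} : ℝ) / K|} = Bad.card := by
    have h1 : {z : ι → X | ∃ h ∈ F, (1 : ℝ) / 16 <
      |(Set.ncard {i | h (z i) = true} : ℝ) / N -
      (Set.ncard {x | h x = true} : ℝ) / K|} = (Bad : Set (ι → X)) := by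
      ext z
      simp only [hBad, Finset.coe_filter, Finset.mem_univ, true_and, hc1, hc2]
    rw [h1, Set.ncard_coe_finset]
  rw [hBadc]
  -- pairs
  set S := (univ : Finset ((ι → X) × (ι → X))).filter (fun p => ∃ h ∈ F, Lg h p) with hS
  have h1 : (Bad.card : ℝ) * (1 / 2 * K ^ Fintype.card ι) ≤ S.card := by
    have h2 : ∀ z ∈ Bad, 1 / 2 * K ^ Fintype.card ι ≤
        ((univ.filter (fun y : ι → X => (z, y) ∈ S)).card : ℝ) := by
      intro z hz
      rw [hBad, Finset.mem_filter] at hz
      obtain ⟨_, h, hF, hh⟩ := hz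
      refine (cheb (ι := ι) h hN).trans ?_
      have h3 : ((univ : Finset (ι → X)).filter (fun y =>
        |∑ i, hr h (y i) - Fintype.card ι * mean h| ≤ Fintype.card ι / 32)) ⊆
          univ.filter (fun y : ι → X => (z, y) ∈ S) := by
        intro y hy
        simp only [Finset.mem_filter, Finset.mem_univ, true_and] at hy ⊢
        rw [hS, Finset.mem_filter]
        refine ⟨Finset.mem_univ _, h, hF, ?_⟩
        unfold Lg
        simp only
        rw [Finset.sum_sub_distrib]
        rw [← hNdef] at hy ⊢
        have h4 : N / 16 < |∑ i, hr h (z i) - N * mean h| := by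
          have h5 : (∑ i, hr h (z i)) / N - mean h = (∑ i, hr h (z i) - N * mean h) / N := by
            field_simp
          rw [h5, abs_div, abs_of_pos (by linarith : (0 : ℝ) < N), lt_div_iff₀ (by linarith)] at hh
          linarith
        have h5 : |∑ i, hr h (z i) - N * mean h| ≤
            |∑ i, hr h (z i) - ∑ i, hr h (y i)| + |∑ i, hr h (y i) - N * mean h| := by
          have h6 : ∑ i, hr h (z i) - N * mean h = (∑ i, hr h (z i) - ∑ i, hr h (y i)) +
            (∑ i, hr h (y i) - N * mean h) := by ring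
          rw [h6]
          exact abs_add_le _ _
        linarith
      exact_mod_cast Finset.card_le_card h3
    have h3 : S.card = ∑ z : ι → X, (univ.filter (fun y : ι → X => (z, y) ∈ S)).card := by
      have h4 : S.card = ∑ p : (ι → X) × (ι → X), (if p ∈ S then 1 else 0) := by
        rw [Finset.sum_boole, Finset.filter_mem_eq_inter, Finset.univ_inter]
        simp
      rw [h4, Fintype.sum_prod_type]
      apply Finset.sum_congr rfl
      intro z _
      rw [Finset.card_filter]
    rw [h3]
    push_cast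
    calc (Bad.card : ℝ) * (1 / 2 * K ^ Fintype.card ι) =
        ∑ z ∈ Bad, (1 / 2 * K ^ Fintype.card ι) := by rw [Finset.sum_const, nsmul_eq_mul]
      _ ≤ ∑ z ∈ Bad, ((univ.filter (fun y : ι → X => (z, y) ∈ S)).card : ℝ) :=
          Finset.sum_le_sum h2
      _ ≤ _ := Finset.sum_le_sum_of_subset_of_nonneg (Finset.subset_univ _)
          (fun _ _ _ => Nat.cast_nonneg _)
  -- symmetrization
  have h2 : ∀ σ : ι → Bool, S.card =
      ((univ : Finset ((ι → X) × (ι → X))).filter (fun p => sw σ p ∈ S)).card := by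
    intro σ
    symm
    apply Finset.card_bij (fun p _ => sw σ p)
    · intro p hp
      rw [Finset.mem_filter] at hp
      exact hp.2
    · intro p _ q _ hpq
      exact (sw_invol σ).injective hpq
    · intro q hq
      refine ⟨sw σ q, ?_, sw_invol σ q⟩
      rw [Finset.mem_filter]
      exact ⟨Finset.mem_univ _, by rw [sw_invol σ q]; exact hq⟩
  have h3 : (2 : ℝ) ^ Fintype.card ι * S.card = ∑ p : (ι → X) × (ι → X),
      (((univ : Finset (ι → Bool)).filter (fun σ => sw σ p ∈ S)).card : ℝ) := by
    have h4 : ∑ σ : ι → Bool, S.card = ∑ σ : ι → Bool,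
        ((univ : Finset ((ι → X) × (ι → X))).filter (fun p => sw σ p ∈ S)).card :=
      Finset.sum_congr rfl (fun σ _ => h2 σ)
    rw [Finset.sum_const, Finset.card_univ, Fintype.card_fun, Fintype.card_bool,
      smul_eq_mul] at h4
    have h5 : ∑ σ : ι → Bool,
        ((univ : Finset ((ι → X) × (ι → X))).filter (fun p => sw σ p ∈ S)).card =
        ∑ p : (ι → X) × (ι → X),
          ((univ : Finset (ι → Bool)).filter (fun σ => sw σ p ∈ S)).card := by
      simp only [Finset.card_filter]
      exact Finset.sum_comm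
    rw [h5] at h4
    exact_mod_cast h4
  -- the bound for one pair
  have h4 : ∀ p : (ι → X) × (ι → X),
      (((univ : Finset (ι → Bool)).filter (fun σ => sw σ p ∈ S)).card : ℝ) ≤
        Γ * (2 * (2 ^ (Fintype.card ι) * Real.exp (-N * (1 / 32) ^ 2 / 2))) := by
    intro p
    set Y : Finset X := univ.image p.1 ∪ univ.image p.2 with hY
    have hYc : Y.card ≤ 2 * Fintype.card ι := by
      calc Y.card ≤ (univ.image p.1).card + (univ.image p.2).card := Finset.card_union_le _ _
        _ ≤ (univ : Finset ι).card + (univ : Finset ι).card :=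
            add_le_add Finset.card_image_le Finset.card_image_le
        _ = 2 * Fintype.card ι := by rw [Finset.card_univ]; ring
    have hY1 : ∀ i, p.1 i ∈ Y := fun i =>
      Finset.mem_union_left _ (Finset.mem_image_of_mem _ (Finset.mem_univ i))
    have hY2 : ∀ i, p.2 i ∈ Y := fun i =>
      Finset.mem_union_right _ (Finset.mem_image_of_mem _ (Finset.mem_univ i))
    set GY := (univ : Finset (X → Bool)).filter
      (fun f => (∃ h ∈ F, ∀ y ∈ Y, f y = h y) ∧ ∀ y ∉ Y, f y = false) with hGY
    have hGc : GY.card ≤ Γ := by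
      have h5 := hΓ Y hYc
      have h6 : {f : X → Bool | (∃ h ∈ F, ∀ y ∈ Y, f y = h y) ∧ ∀ y ∉ Y, f y = false} =
          (GY : Set (X → Bool)) := by
        ext f; simp [hGY]
      rw [h6, Set.ncard_coe_finset] at h5
      exact h5
    have h5 : (univ : Finset (ι → Bool)).filter (fun σ => sw σ p ∈ S) ⊆
        GY.biUnion (fun f => (univ : Finset (ι → Bool)).filter (fun σ => N * (1 / 32) <
          |∑ i, (if σ i = true then (hr f (p.1 i) - hr f (p.2 i))
            else -(hr f (p.1 i) - hr f (p.2 i)))|)) := by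
      intro σ hσ
      rw [Finset.mem_filter, hS, Finset.mem_filter] at hσ
      obtain ⟨_, _, h, hF, hh⟩ := hσ
      rw [Finset.mem_biUnion]
      refine ⟨fun x => if x ∈ Y then h x else false, ?_, ?_⟩
      · rw [hGY, Finset.mem_filter]
        refine ⟨Finset.mem_univ _, ⟨h, hF, fun y hy => by simp [hy]⟩, fun y hy => by simp [hy]⟩
      · rw [Finset.mem_filter]
        refine ⟨Finset.mem_univ _, ?_⟩
        unfold Lg at hh
        rw [← hNdef] at hh
        have h6 : ∑ i, (hr h ((sw σ p).1 i) - hr h ((sw σ p).2 i)) =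
            ∑ i, (if σ i = true then (hr (fun x => if x ∈ Y then h x else false) (p.1 i) -
              hr (fun x => if x ∈ Y then h x else false) (p.2 i))
            else -(hr (fun x => if x ∈ Y then h x else false) (p.1 i) -
              hr (fun x => if x ∈ Y then h x else false) (p.2 i))) := by
          apply Finset.sum_congr rfl
          intro i _
          have h7 : hr (fun x => if x ∈ Y then h x else false) (p.1 i) = hr h (p.1 i) := by
            unfold hr; simp [hY1 i]
          have h8 : hr (fun x => if x ∈ Y then h x else false) (p.2 i) = hr h (p.2 i) := by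
            unfold hr; simp [hY2 i]
          rw [h7, h8]
          unfold sw
          by_cases hs : σ i = true
          · simp [hs]
          · simp [hs]
        rw [← h6]
        exact hh
    have h6 := (Finset.card_le_card h5).trans Finset.card_biUnion_le
    have h7 : ∀ f ∈ GY, (((univ : Finset (ι → Bool)).filter (fun σ => N * (1 / 32) <
          |∑ i, (if σ i = true then (hr f (p.1 i) - hr f (p.2 i))
            else -(hr f (p.1 i) - hr f (p.2 i)))|)).card : ℝ) ≤
        2 * (2 ^ (Fintype.card ι) * Real.exp (-N * (1 / 32) ^ 2 / 2)) := by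
      intro f _
      apply rad2 (fun i => hr f (p.1 i) - hr f (p.2 i)) _ (1 / 32) (by norm_num)
      intro i
      unfold hr
      split_ifs <;> norm_num
    calc (((univ : Finset (ι → Bool)).filter (fun σ => sw σ p ∈ S)).card : ℝ)
        ≤ ((∑ f ∈ GY, ((univ : Finset (ι → Bool)).filter (fun σ => N * (1 / 32) <
          |∑ i, (if σ i = true then (hr f (p.1 i) - hr f (p.2 i))
            else -(hr f (p.1 i) - hr f (p.2 i)))|)).card : ℕ) : ℝ) := by exact_mod_cast h6
      _ = ∑ f ∈ GY, (((univ : Finset (ι → Bool)).filter (fun σ => N * (1 / 32) <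
          |∑ i, (if σ i = true then (hr f (p.1 i) - hr f (p.2 i))
            else -(hr f (p.1 i) - hr f (p.2 i)))|)).card : ℝ) := by push_cast; rfl
      _ ≤ ∑ f ∈ GY, 2 * (2 ^ (Fintype.card ι) * Real.exp (-N * (1 / 32) ^ 2 / 2)) :=
          Finset.sum_le_sum h7
      _ = GY.card * (2 * (2 ^ (Fintype.card ι) * Real.exp (-N * (1 / 32) ^ 2 / 2))) := by
          rw [Finset.sum_const, nsmul_eq_mul]
      _ ≤ _ := by
          apply mul_le_mul_of_nonneg_right _ (by positivity)
          exact_mod_cast hGc
  have h5 : (2 : ℝ) ^ Fintype.card ι * S.card ≤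
      (K ^ Fintype.card ι * K ^ Fintype.card ι) *
        (Γ * (2 * (2 ^ (Fintype.card ι) * Real.exp (-N * (1 / 32) ^ 2 / 2)))) := by
    rw [h3]
    refine (Finset.sum_le_sum (fun p _ => h4 p)).trans ?_
    rw [Finset.sum_const, Finset.card_univ, Fintype.card_prod, Fintype.card_fun, nsmul_eq_mul]
    push_cast
    exact le_refl _
  have h6 : (S.card : ℝ) ≤ (K ^ Fintype.card ι * K ^ Fintype.card ι) *
        (Γ * (2 * Real.exp (-N * (1 / 32) ^ 2 / 2))) := by
    have h7 : (K ^ Fintype.card ι * K ^ Fintype.card ι) *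
        (Γ * (2 * (2 ^ (Fintype.card ι) * Real.exp (-N * (1 / 32) ^ 2 / 2)))) =
        2 ^ Fintype.card ι * ((K ^ Fintype.card ι * K ^ Fintype.card ι) *
        (Γ * (2 * Real.exp (-N * (1 / 32) ^ 2 / 2)))) := by ring
    rw [h7] at h5
    exact le_of_mul_le_mul_left h5 (by positivity)
  have h7 : Real.exp (-N * (1 / 32) ^ 2 / 2) ≤ Real.exp (-N / 4096) := by
    apply Real.exp_le_exp.mpr
    nlinarith
  have h8 : (Bad.card : ℝ) * (1 / 2 * K ^ Fintype.card ι) ≤
      (4 * Γ * Real.exp (-N / 4096) * K ^ Fintype.card ι) * (1 / 2 * K ^ Fintype.card ι) := by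
    refine (h1.trans h6).trans ?_
    have h9 : (K ^ Fintype.card ι * K ^ Fintype.card ι) *
        (Γ * (2 * Real.exp (-N * (1 / 32) ^ 2 / 2))) ≤
        (K ^ Fintype.card ι * K ^ Fintype.card ι) * (Γ * (2 * Real.exp (-N / 4096))) := by
      apply mul_le_mul_of_nonneg_left _ (by positivity)
      apply mul_le_mul_of_nonneg_left _ (by positivity)
      linarith
    linarith
  exact le_of_mul_le_mul_right h8 (by positivity)

end Pool.Agent.W824.LG
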